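import Mathlib

set_option autoImplicit false

open Set Cardinal

namespace Pool.Agent.X247.SL

/-- An ideal on `ω`: a proper ideal of subsets of `ω` that contains every finite set. -/
def IsIdeal (J : Set (Set ℕ)) : Prop :=
  (∀ a : Set ℕ, a.Finite → a ∈ J) ∧ (∀ a ∈ J, ∀ b : Set ℕ, b ⊆ a → b ∈ J) ∧
    (∀ a ∈ J, ∀ b ∈ J, a ∪ b ∈ J) ∧ (Set.univ : Set ℕ) ∉ J

/-- `A ≤_K J` (Katetov order). -/
def KatetovLE (A J : Set (Set ℕ)) : Prop := ∃ f : ℕ → ℕ, ∀ a ∈ A, f ⁻¹' a ∈ J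

/-- `J₀ ⊕ J₁`, moved from `{0,1} × ω` to `ω` by the bijection `e`. -/
def osum (e : Bool × ℕ ≃ ℕ) (J₀ J₁ : Set (Set ℕ)) : Set (Set ℕ) :=
  {A | {n | e (false, n) ∈ A} ∈ J₀ ∧ {n | e (true, n) ∈ A} ∈ J₁}

/-- `A` generates an ideal: no finite union of members of `A` is cofinite. -/
def Generates (A : Set (Set ℕ)) : Prop :=
  ∀ t : Set (Set ℕ), t ⊆ A → t.Finite → ¬ ((⋃₀ t)ᶜ).Finite

/-- `𝔭_K(⋆,J)`; `⊤` is `∞`. -/
noncomputable def pKs (J : Set (Set ℕ)) : WithTop Cardinal.{0} :=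
  sInf {κ : WithTop Cardinal.{0} | ∃ A : Set (Set ℕ), Generates A ∧ ¬ KatetovLE A J ∧
    κ = ((Cardinal.mk A : Cardinal.{0}) : WithTop Cardinal.{0})}

theorem separate (R : Finset (ℕ → Bool)) :
    ∃ m : ℕ, ∀ r ∈ R, ∀ r' ∈ R, (∀ i < m, r i = r' i) → r = r' := by
  classical
  have h : ∀ r r' : ℕ → Bool, ∃ i, r ≠ r' → r i ≠ r' i := by
    intro r r'
    by_cases h : r = r'
    · exact ⟨0, fun h' => absurd h h'⟩
    · obtain ⟨i, hi⟩ := Function.ne_iff.1 h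
      exact ⟨i, fun _ => hi⟩
  choose d hd using h
  refine ⟨(R ×ˢ R).sup (fun x => d x.1 x.2) + 1, fun r hr r' hr' heq => ?_⟩
  by_contra hne
  have h1 : d r r' ≤ (R ×ˢ R).sup (fun x => d x.1 x.2) :=
    Finset.le_sup (f := fun x : (ℕ → Bool) × (ℕ → Bool) => d x.1 x.2)
      (b := (r, r')) (Finset.mem_product.2 ⟨hr, hr'⟩)
  exact hd r r' hne (heq _ (by omega))

/-- The ultrafilter. -/
theorem exists_U (κ : Cardinal.{0}) (h2 : (2 : Cardinal.{0}) ^ κ = Cardinal.continuum)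
    (hinf : ℵ₀ ≤ κ) :
    ∃ U : Ultrafilter ℕ, (∀ n : ℕ, ({n} : Set ℕ) ∉ U) ∧
      ∀ A : Set (Set ℕ), Generates A → Cardinal.mk A ≤ κ →
        ∃ f : ℕ → ℕ, ∀ a ∈ A, (f ⁻¹' a)ᶜ ∈ U := by
  classical
  let T : Type := {A : Set (Set ℕ) // Cardinal.mk A ≤ κ}
  have hT : Cardinal.mk T ≤ Cardinal.mk (ℕ → Bool) := by
    have h1 : Cardinal.mk T ≤ max (Cardinal.mk (Set ℕ)) ℵ₀ ^ κ := Cardinal.mk_bounded_set_le _ _
    have h3 : Cardinal.mk (Set ℕ) = Cardinal.continuum := by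
      rw [Cardinal.mk_set, Cardinal.mk_nat]; rfl
    have h4 : Cardinal.mk (ℕ → Bool) = Cardinal.continuum := by
      rw [← Cardinal.power_def, Cardinal.mk_bool, Cardinal.mk_nat, Cardinal.two_power_aleph0]
    rw [h3, max_eq_left Cardinal.aleph0_le_continuum] at h1
    rw [h4]
    refine h1.trans ?_
    have h5 : (Cardinal.continuum : Cardinal.{0}) ^ κ = (2 : Cardinal.{0}) ^ κ := by
      rw [← Cardinal.two_power_aleph0, ← Cardinal.power_mul, Cardinal.aleph0_mul_eq hinf]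
    rw [h5, h2]
  obtain ⟨ι⟩ := (Cardinal.le_def _ _).1 hT
  haveI : Nonempty T := ⟨⟨∅, by simp⟩⟩
  let C : Type := Σ m : ℕ, ((Fin m → Bool) → ℕ)
  haveI : Nonempty C := ⟨⟨0, fun _ => 0⟩⟩
  haveI : Countable C := inferInstanceAs (Countable (Σ m : ℕ, ((Fin m → Bool) → ℕ)))
  obtain ⟨e, he⟩ := exists_surjective_nat C
  let g : T → ℕ → ℕ := fun A n => (e n).2 (fun i => ι A i)
  let S : Set (Set ℕ) := {s | ∃ A : T, Generates A.1 ∧ ∃ a ∈ A.1, s = (g A ⁻¹' a)ᶜ}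
  have cond : ∀ T0 : Finset (Set ℕ), (↑T0 : Set (Set ℕ)) ⊆ S → (⋂₀ (↑T0 : Set (Set ℕ))).Nonempty := by
    intro T0 hT0
    have h6 : ∀ s ∈ T0, ∃ A : T, ∃ a : Set ℕ, Generates A.1 ∧ a ∈ A.1 ∧ s = (g A ⁻¹' a)ᶜ := by
      intro s hs
      obtain ⟨A, hA, a, ha, hsa⟩ := hT0 hs
      exact ⟨A, a, hA, ha, hsa⟩
    choose! A a hA ha hs using h6
    have h7 : ∀ B : T, ∃ v : ℕ, ∀ s ∈ T0, A s = B → v ∉ a s := by
      intro B
      by_cases hB : ∃ s ∈ T0, A s = B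
      · obtain ⟨s0, hs0, rfl⟩ := hB
        have h8 := hA s0 hs0 {x | ∃ s ∈ T0, A s = A s0 ∧ x = a s} ?_ ?_
        · have h9 : ((⋃₀ {x | ∃ s ∈ T0, A s = A s0 ∧ x = a s})ᶜ).Nonempty := by
            by_contra h10
            rw [Set.not_nonempty_iff_eq_empty] at h10
            rw [h10] at h8
            exact h8 Set.finite_empty
          obtain ⟨v, hv⟩ := h9
          refine ⟨v, fun s hs hAs hva => hv ?_⟩
          exact ⟨a s, ⟨s, hs, hAs, rfl⟩, hva⟩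
        · rintro x ⟨s, hs, hAs, rfl⟩
          rw [← hAs]
          exact ha s hs
        · refine (T0.finite_toSet.image a).subset ?_
          rintro x ⟨s, hs, -, rfl⟩
          exact ⟨s, hs, rfl⟩
      · exact ⟨0, fun s hs hAs => absurd ⟨s, hs, hAs⟩ hB⟩
    choose v hv using h7
    obtain ⟨m, hm⟩ := separate (T0.image fun s => ι (A s))
    let p : (Fin m → Bool) → ℕ := fun q =>
      if h : ∃ s, s ∈ T0 ∧ ∀ i : Fin m, ι (A s) i = q i then v (A h.choose) else 0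
    obtain ⟨n, hn⟩ := he ⟨m, p⟩
    refine ⟨n, ?_⟩
    rintro s hsT
    have hsT : s ∈ T0 := hsT
    rw [hs s hsT]
    have h11 : g (A s) n = v (A s) := by
      show (e n).2 (fun i => ι (A s) i) = v (A s)
      have h12 : ∀ (c : C), e n = c → (e n).2 (fun i => ι (A s) i) = c.2 (fun i => ι (A s) i) := by
        rintro c rfl; rfl
      rw [h12 _ hn]
      show p (fun i => ι (A s) i) = v (A s)
      have hex : ∃ s', s' ∈ T0 ∧ ∀ i : Fin m, ι (A s') i = (fun i : Fin m => ι (A s) i) i :=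
        ⟨s, hsT, fun i => rfl⟩
      show (if h : ∃ s', s' ∈ T0 ∧ ∀ i : Fin m, ι (A s') i = (fun i : Fin m => ι (A s) i) i
        then v (A h.choose) else 0) = v (A s)
      rw [dif_pos hex]
      have h13 := hex.choose_spec
      have h14 : ι (A hex.choose) = ι (A s) := by
        refine hm _ (Finset.mem_image.2 ⟨_, h13.1, rfl⟩) _ (Finset.mem_image.2 ⟨_, hsT, rfl⟩) ?_
        intro i hi
        exact h13.2 ⟨i, hi⟩
      rw [ι.injective h14]
    show ¬ (g (A s) n ∈ a s)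
    rw [h11]
    exact hv (A s) s hsT rfl
  obtain ⟨U, hU⟩ := Ultrafilter.exists_ultrafilter_of_finite_inter_nonempty S cond
  refine ⟨U, ?_, ?_⟩
  · intro n hn
    let A0 : Set (Set ℕ) := Set.range (fun k : ℕ => ({k} : Set ℕ))
    have hA0 : Cardinal.mk A0 ≤ κ := (Cardinal.mk_range_le.trans (by simp)).trans hinf
    have hG : Generates A0 := by
      intro t ht htf hfin
      have h1 : (⋃₀ t).Finite := by
        refine htf.sUnion ?_
        intro s hs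
        obtain ⟨k, rfl⟩ := ht hs
        exact Set.finite_singleton k
      have h3 := hfin.union h1
      rw [Set.compl_union_self] at h3
      exact Set.infinite_univ h3
    have h1 : (g ⟨A0, hA0⟩ ⁻¹' {g ⟨A0, hA0⟩ n})ᶜ ∈ U :=
      hU ⟨⟨A0, hA0⟩, hG, {g ⟨A0, hA0⟩ n}, ⟨_, rfl⟩, rfl⟩
    have h3 := U.inter_sets hn h1
    have h4 : ({n} : Set ℕ) ∩ (g ⟨A0, hA0⟩ ⁻¹' {g ⟨A0, hA0⟩ n})ᶜ = ∅ := by
      ext x
      simp only [Set.mem_inter_iff, Set.mem_singleton_iff, Set.mem_compl_iff, Set.mem_preimage,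
        Set.mem_empty_iff_false, iff_false, not_and, not_not]
      rintro rfl
      rfl
    rw [h4] at h3
    exact Ultrafilter.empty_notMem h3
  · intro A hA hc
    exact ⟨g ⟨A, hc⟩, fun a ha => hU ⟨⟨A, hc⟩, hA, a, ha, rfl⟩⟩

def J0 (U : Ultrafilter ℕ) : Set (Set ℕ) := {B | {i : ℕ | ∀ j : ℕ, Nat.pair i j ∉ B} ∈ U}
def J1 (U : Ultrafilter ℕ) : Set (Set ℕ) := {B | {j : ℕ | ∀ i : ℕ, Nat.pair i j ∉ B} ∈ U}

theorem cof_mem (U : Ultrafilter ℕ) (hU : ∀ n : ℕ, ({n} : Set ℕ) ∉ U) (F : Set ℕ) (hF : F.Finite) :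
    Fᶜ ∈ U := by
  rcases U.le_cofinite_or_eq_pure with h | ⟨a, ha⟩
  · exact h (Set.Finite.compl_mem_cofinite hF)
  · exact absurd (show ({a} : Set ℕ) ∈ U by rw [ha]; simp) (hU a)

theorem J0_ideal (U : Ultrafilter ℕ) (hU : ∀ n : ℕ, ({n} : Set ℕ) ∉ U) : IsIdeal (J0 U) := by
  refine ⟨?_, ?_, ?_, ?_⟩
  · intro a ha
    refine Filter.mem_of_superset (cof_mem U hU ((fun n => (Nat.unpair n).1) '' a) (ha.image _)) ?_
    intro i hi j hj
    exact hi ⟨_, hj, by simp⟩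
  · intro a ha b hb
    exact Filter.mem_of_superset ha fun i hi j hj => hi j (hb hj)
  · intro a ha b hb
    refine Filter.mem_of_superset (Filter.inter_mem ha hb) ?_
    rintro i ⟨h1, h2⟩ j (hj | hj)
    · exact h1 j hj
    · exact h2 j hj
  · intro h
    have h1 : {i : ℕ | ∀ j : ℕ, Nat.pair i j ∉ (Set.univ : Set ℕ)} = ∅ := by
      ext i; simp
    have h2 : {i : ℕ | ∀ j : ℕ, Nat.pair i j ∉ (Set.univ : Set ℕ)} ∈ U := h
    rw [h1] at h2
    exact Ultrafilter.empty_notMem h2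

theorem J1_ideal (U : Ultrafilter ℕ) (hU : ∀ n : ℕ, ({n} : Set ℕ) ∉ U) : IsIdeal (J1 U) := by
  refine ⟨?_, ?_, ?_, ?_⟩
  · intro a ha
    refine Filter.mem_of_superset (cof_mem U hU ((fun n => (Nat.unpair n).2) '' a) (ha.image _)) ?_
    intro i hi j hj
    exact hi ⟨_, hj, by simp⟩
  · intro a ha b hb
    exact Filter.mem_of_superset ha fun i hi j hj => hi j (hb hj)
  · intro a ha b hb
    refine Filter.mem_of_superset (Filter.inter_mem ha hb) ?_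
    rintro i ⟨h1, h2⟩ j (hj | hj)
    · exact h1 j hj
    · exact h2 j hj
  · intro h
    have h1 : {i : ℕ | ∀ j : ℕ, Nat.pair j i ∉ (Set.univ : Set ℕ)} = ∅ := by
      ext i; simp
    have h2 : {i : ℕ | ∀ j : ℕ, Nat.pair j i ∉ (Set.univ : Set ℕ)} ∈ U := h
    rw [h1] at h2
    exact Ultrafilter.empty_notMem h2

theorem not_red (U : Ultrafilter ℕ) (A : Set (Set ℕ))
    (hfin : ∀ F : Set ℕ, F.Finite → ∃ a ∈ A, F ⊆ a)
    (hhit : ∀ R : ℕ → Set ℕ, (∀ i, (R i).Infinite) → ∃ a ∈ A, ∀ i, (a ∩ R i).Nonempty) :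
    ¬ KatetovLE A (J0 U ∩ J1 U) := by
  rintro ⟨φ, hφ⟩
  let R : ℕ → Set ℕ := fun i => {m | ∃ j, m = φ (Nat.pair i j) ∨ m = φ (Nat.pair j i)}
  have key : ∀ a ∈ A, ∃ i, ∀ m ∈ R i, m ∉ a := by
    intro a ha
    obtain ⟨h1, h2⟩ := hφ a ha
    have h3 : {i : ℕ | ∀ j : ℕ, Nat.pair i j ∉ φ ⁻¹' a} ∩ {j : ℕ | ∀ i : ℕ, Nat.pair i j ∉ φ ⁻¹' a} ∈ U :=
      Filter.inter_mem h1 h2
    obtain ⟨i, hi1, hi2⟩ := Ultrafilter.nonempty_of_mem h3
    refine ⟨i, ?_⟩
    rintro m ⟨j, rfl | rfl⟩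
    · exact hi1 j
    · exact hi2 j
  by_cases h : ∃ i0, (R i0).Finite
  · obtain ⟨i0, hi0⟩ := h
    obtain ⟨a, ha, hsub⟩ := hfin _ hi0
    obtain ⟨i, hi⟩ := key a ha
    exact hi (φ (Nat.pair i i0)) ⟨i0, Or.inl rfl⟩ (hsub ⟨i, Or.inr rfl⟩)
  · push Not at h
    obtain ⟨a, ha, hR⟩ := hhit R h
    obtain ⟨i, hi⟩ := key a ha
    obtain ⟨m, hma, hmR⟩ := hR i
    exact hi m hmR hma

/-- The points chosen by `y`. -/
def pts (y : ℕ → ℕ) : Set ℕ := Set.range (fun n => 2 ^ n + y n % 2 ^ n)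

def fam (N : Set (ℕ → ℕ)) : Set (Set ℕ) :=
  {a | ∃ y ∈ N, ∃ m : ℕ, a = pts y ∪ {k | k < m}}

theorem fam_card (N : Set (ℕ → ℕ)) (κ : Cardinal.{0}) (hκ : Cardinal.mk N ≤ κ) (hinf : ℵ₀ ≤ κ) :
    Cardinal.mk (fam N) ≤ κ := by
  have h1 : fam N = Set.range (fun x : N × ℕ => pts x.1.1 ∪ {k | k < x.2}) := by
    ext a
    constructor
    · rintro ⟨y, hy, m, rfl⟩
      exact ⟨(⟨y, hy⟩, m), rfl⟩
    · rintro ⟨⟨⟨y, hy⟩, m⟩, rfl⟩
      exact ⟨y, hy, m, rfl⟩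
  rw [h1]
  refine Cardinal.mk_range_le.trans ?_
  rw [Cardinal.mk_prod, Cardinal.lift_id, Cardinal.lift_id, Cardinal.mk_nat]
  calc Cardinal.mk N * ℵ₀ ≤ κ * κ := mul_le_mul' hκ hinf
    _ = κ := Cardinal.mul_eq_self hinf

theorem pts_unique (y : ℕ → ℕ) (n x : ℕ) (hx : x ∈ pts y) (h1 : 2 ^ n ≤ x) (h2 : x < 2 ^ (n + 1)) :
    x = 2 ^ n + y n % 2 ^ n := by
  obtain ⟨l, rfl⟩ := hx
  simp only at h1 h2 ⊢
  have h3 : y l % 2 ^ l < 2 ^ l := Nat.mod_lt _ (by positivity)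
  have h4 : 2 ^ n < 2 ^ (l + 1) := by rw [pow_succ]; omega
  have h5 : 2 ^ l < 2 ^ (n + 1) := by omega
  have h6 : n < l + 1 := (Nat.pow_lt_pow_iff_right (by norm_num)).1 h4
  have h7 : l < n + 1 := (Nat.pow_lt_pow_iff_right (by norm_num)).1 h5
  have : l = n := by omega
  subst this
  rfl

theorem fam_generates (N : Set (ℕ → ℕ)) : Generates (fam N) := by
  classical
  intro t ht htf hfin
  have h1 : ∀ a : Set ℕ, ∃ m : ℕ, a ∈ t → ∀ n, m ≤ 2 ^ n → ∀ x ∈ a, ∀ x' ∈ a,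
      2 ^ n ≤ x → x < 2 ^ (n + 1) → 2 ^ n ≤ x' → x' < 2 ^ (n + 1) → x = x' := by
    intro a
    by_cases ha : a ∈ t
    · obtain ⟨y, hy, m, rfl⟩ := ht ha
      refine ⟨m, fun _ n hn x hx x' hx' h1 h2 h3 h4 => ?_⟩
      have hx : x ∈ pts y := by
        rcases hx with hx | hx
        · exact hx
        · exact absurd (show x < m from hx) (by omega)
      have hx' : x' ∈ pts y := by
        rcases hx' with hx' | hx'
        · exact hx'
        · exact absurd (show x' < m from hx') (by omega)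
      rw [pts_unique y n x hx h1 h2, pts_unique y n x' hx' h3 h4]
    · exact ⟨0, fun h => absurd h ha⟩
  choose M hM using h1
  obtain ⟨B, hB⟩ := hfin.bddAbove
  let n : ℕ := B + 1 + (htf.toFinset.sup M) + htf.toFinset.card
  have hn2 : n < 2 ^ n := Nat.lt_two_pow_self
  have hall : ∀ x ∈ Finset.Ico (2 ^ n) (2 ^ (n + 1)), ∃ a ∈ htf.toFinset, x ∈ a := by
    intro x hx
    rw [Finset.mem_Ico] at hx
    by_contra hcon
    push Not at hcon
    have h3 : x ∈ (⋃₀ t)ᶜ := by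
      rintro ⟨a, ha, hxa⟩
      exact hcon a (by simpa using ha) hxa
    have h4 := hB h3
    have : B < n := by omega
    omega
  choose! F hF using hall
  have hcard : (Finset.Ico (2 ^ n) (2 ^ (n + 1))).card ≤ htf.toFinset.card := by
    refine Finset.card_le_card_of_injOn F (fun x hx => (hF x hx).1) ?_
    intro x hx x' hx' heq
    have hx := Finset.mem_coe.1 hx
    have hx' := Finset.mem_coe.1 hx'
    have h5 := hF x hx
    have h6 := hF x' hx'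
    rw [← heq] at h6
    rw [Finset.mem_Ico] at hx hx'
    have h7 : M (F x) ≤ 2 ^ n := by
      have h8 : M (F x) ≤ htf.toFinset.sup M := Finset.le_sup h5.1
      omega
    exact hM (F x) (by simpa using h5.1) n h7 x h5.2 x' h6.2 hx.1 hx.2 hx'.1 hx'.2
  rw [Nat.card_Ico, pow_succ] at hcard
  omega

theorem fam_hit (N : Set (ℕ → ℕ)) (hN : ¬ IsMeagre N) (R : ℕ → Set ℕ) (hR : ∀ i, (R i).Infinite) :
    ∃ a ∈ fam N, ∀ i, (a ∩ R i).Nonempty := by
  classical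
  let D : ℕ → Set (ℕ → ℕ) := fun i => {y | ∃ n, 2 ^ n + y n % 2 ^ n ∈ R i}
  have hD : ∀ i, D i ∈ residual (ℕ → ℕ) := by
    intro i
    apply residual_of_dense_open
    · have : D i = ⋃ n : ℕ, (fun y : ℕ → ℕ => y n) ⁻¹' {v | 2 ^ n + v % 2 ^ n ∈ R i} := by
        ext y; simp [D]
      rw [this]
      exact isOpen_iUnion fun n => (isOpen_discrete _).preimage (continuous_apply n)
    · rw [dense_iff_inter_open]
      intro O hO hne
      obtain ⟨y, hy⟩ := hne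
      obtain ⟨I, u, hu, hsub⟩ := isOpen_pi_iff.1 hO y hy
      let m : ℕ := I.sup id + 1
      obtain ⟨r, hr, hrm⟩ := (hR i).exists_gt (2 ^ m)
      let n := Nat.log 2 r
      have hr0 : r ≠ 0 := by
        have : 0 < 2 ^ m := by positivity
        omega
      have h1 : 2 ^ n ≤ r := Nat.pow_log_le_self 2 hr0
      have h2 : r < 2 ^ (n + 1) := Nat.lt_pow_succ_log_self (by norm_num) r
      have hmn : m ≤ n := by
        have h3 : 2 ^ m < 2 ^ (n + 1) := hrm.trans h2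
        have h4 : m < n + 1 := (Nat.pow_lt_pow_iff_right (by norm_num)).1 h3
        omega
      refine ⟨Function.update y n (r - 2 ^ n), hsub ?_, n, ?_⟩
      · intro a ha
        have h5 : a ≤ I.sup id := Finset.le_sup (f := id) ha
        have h6 : a ≠ n := by omega
        rw [Function.update_of_ne h6]
        exact (hu a ha).2
      · rw [Function.update_self]
        have h7 : r - 2 ^ n < 2 ^ n := by rw [pow_succ] at h2; omega
        rw [Nat.mod_eq_of_lt h7, Nat.add_sub_cancel' h1]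
        exact hr
  have hall : (⋂ i, D i) ∈ residual (ℕ → ℕ) := countable_iInter_mem.2 hD
  have hex : ∃ y ∈ N, y ∈ ⋂ i, D i := by
    by_contra hcon
    push Not at hcon
    apply hN
    show Nᶜ ∈ residual (ℕ → ℕ)
    exact Filter.mem_of_superset hall fun y hy hyN => hcon y hyN hy
  obtain ⟨y, hyN, hyD⟩ := hex
  refine ⟨pts y ∪ {k | k < 0}, ⟨y, hyN, 0, rfl⟩, fun i => ?_⟩
  obtain ⟨n, hn⟩ := Set.mem_iInter.1 hyD i
  exact ⟨_, Or.inl ⟨n, rfl⟩, hn⟩

theorem iv_fails (κ : Cardinal.{0}) (h2 : (2 : Cardinal.{0}) ^ κ = Cardinal.continuum)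
    (N : Set (ℕ → ℕ)) (hN : ¬ IsMeagre N) (hκ : Cardinal.mk N ≤ κ) :
    ∃ J₀ J₁ : Set (Set ℕ), IsIdeal J₀ ∧ IsIdeal J₁ ∧
      pKs (J₀ ∩ J₁) ≤ (κ : WithTop Cardinal.{0}) ∧
      ∀ e : Bool × ℕ ≃ ℕ, (κ : WithTop Cardinal.{0}) < pKs (osum e J₀ J₁) := by
  have hinf : ℵ₀ ≤ κ := by
    by_contra hcon
    have h1 : (2 : Cardinal.{0}) ^ κ < ℵ₀ :=
      Cardinal.power_lt_aleph0 (by exact_mod_cast Cardinal.natCast_lt_aleph0 (n := 2)) (not_le.1 hcon)
    rw [h2] at h1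
    exact absurd h1 (not_lt.2 Cardinal.aleph0_le_continuum)
  obtain ⟨U, hU, hUA⟩ := exists_U κ h2 hinf
  have hNne : N.Nonempty := by
    by_contra hcon
    rw [Set.not_nonempty_iff_eq_empty] at hcon
    apply hN
    rw [hcon]
    exact IsMeagre.empty
  refine ⟨J0 U, J1 U, J0_ideal U hU, J1_ideal U hU, ?_, ?_⟩
  · have h1 : pKs (J0 U ∩ J1 U) ≤ ((Cardinal.mk (fam N) : Cardinal.{0}) : WithTop Cardinal.{0}) := by
      refine sInf_le ⟨fam N, fam_generates N, not_red U _ ?_ (fam_hit N hN), rfl⟩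
      intro F hF
      obtain ⟨y, hy⟩ := hNne
      obtain ⟨B, hB⟩ := hF.bddAbove
      refine ⟨pts y ∪ {k | k < B + 1}, ⟨y, hy, B + 1, rfl⟩, fun x hx => Or.inr ?_⟩
      have := hB hx
      show x < B + 1
      omega
    exact h1.trans (WithTop.coe_le_coe.2 (fam_card N κ hκ hinf))
  · intro e
    have h1 : ((Order.succ κ : Cardinal.{0}) : WithTop Cardinal.{0}) ≤ pKs (osum e (J0 U) (J1 U)) := by
      refine le_sInf ?_
      rintro x ⟨A, hA, hn, rfl⟩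
      refine WithTop.coe_le_coe.2 (Order.succ_le_of_lt ?_)
      by_contra hcon
      obtain ⟨f, hf⟩ := hUA A hA (not_lt.1 hcon)
      apply hn
      refine ⟨fun n => if (e.symm n).1 = false then f (Nat.unpair (e.symm n).2).1
        else f (Nat.unpair (e.symm n).2).2, ?_⟩
      intro a ha
      refine ⟨?_, ?_⟩
      · show {i : ℕ | ∀ j : ℕ, Nat.pair i j ∉ {n | e (false, n) ∈ (fun n => if (e.symm n).1 = false
          then f (Nat.unpair (e.symm n).2).1 else f (Nat.unpair (e.symm n).2).2) ⁻¹' a}} ∈ U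
        refine Filter.mem_of_superset (hf a ha) ?_
        intro i hi j hj
        apply hi
        simpa using hj
      · show {i : ℕ | ∀ j : ℕ, Nat.pair j i ∉ {n | e (true, n) ∈ (fun n => if (e.symm n).1 = false
          then f (Nat.unpair (e.symm n).2).1 else f (Nat.unpair (e.symm n).2).2) ⁻¹' a}} ∈ U
        refine Filter.mem_of_superset (hf a ha) ?_
        intro i hi j hj
        apply hi
        simpa using hj
    refine lt_of_lt_of_le ?_ h1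
    exact WithTop.coe_lt_coe.2 (Order.lt_succ κ)

end Pool.Agent.X247.SL
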