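import Mathlib
import Pool.Agent.X247.SL.Iv

set_option autoImplicit false

open Set Cardinal

namespace Pool.Agent.X247.SL

/-- A tower: a family of infinite subsets of `ω`, linearly ordered by almost inclusion, without an
infinite pseudo-intersection. -/
def IsTower (T : Set (Set ℕ)) : Prop :=
  (∀ a ∈ T, a.Infinite) ∧ (∀ a ∈ T, ∀ b ∈ T, (a \ b).Finite ∨ (b \ a).Finite) ∧
    ¬ ∃ X : Set ℕ, X.Infinite ∧ ∀ a ∈ T, (X \ a).Finite

/-- The pullback of `J` under the first projection `ω × ω → ω` (coded by the pairing function). -/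
def P0 (J : Set (Set ℕ)) : Set (Set ℕ) := {B | {i : ℕ | ∃ j : ℕ, Nat.pair i j ∈ B} ∈ J}

/-- The pullback of `J` under the second projection. -/
def P1 (J : Set (Set ℕ)) : Set (Set ℕ) := {B | {j : ℕ | ∃ i : ℕ, Nat.pair i j ∈ B} ∈ J}

theorem P0_ideal (J : Set (Set ℕ)) (hJ : IsIdeal J) : IsIdeal (P0 J) := by
  obtain ⟨h1, h2, h3, h4⟩ := hJ
  refine ⟨?_, ?_, ?_, ?_⟩
  · intro a ha
    refine h2 _ (h1 _ (ha.image (fun n => (Nat.unpair n).1))) _ ?_
    rintro i ⟨j, hj⟩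
    exact ⟨_, hj, by simp⟩
  · intro a ha b hb
    refine h2 _ ha _ ?_
    rintro i ⟨j, hj⟩
    exact ⟨j, hb hj⟩
  · intro a ha b hb
    refine h2 _ (h3 _ ha _ hb) _ ?_
    rintro i ⟨j, hj | hj⟩
    · exact Or.inl ⟨j, hj⟩
    · exact Or.inr ⟨j, hj⟩
  · intro h
    apply h4
    have h5 : {i : ℕ | ∃ j : ℕ, Nat.pair i j ∈ (Set.univ : Set ℕ)} ∈ J := h
    have h6 : {i : ℕ | ∃ j : ℕ, Nat.pair i j ∈ (Set.univ : Set ℕ)} = Set.univ := by
      ext i; simp
    rwa [h6] at h5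

theorem P1_ideal (J : Set (Set ℕ)) (hJ : IsIdeal J) : IsIdeal (P1 J) := by
  obtain ⟨h1, h2, h3, h4⟩ := hJ
  refine ⟨?_, ?_, ?_, ?_⟩
  · intro a ha
    refine h2 _ (h1 _ (ha.image (fun n => (Nat.unpair n).2))) _ ?_
    rintro i ⟨j, hj⟩
    exact ⟨_, hj, by simp⟩
  · intro a ha b hb
    refine h2 _ ha _ ?_
    rintro i ⟨j, hj⟩
    exact ⟨j, hb hj⟩
  · intro a ha b hb
    refine h2 _ (h3 _ ha _ hb) _ ?_
    rintro i ⟨j, hj | hj⟩
    · exact Or.inl ⟨j, hj⟩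
    · exact Or.inr ⟨j, hj⟩
  · intro h
    apply h4
    have h5 : {i : ℕ | ∃ j : ℕ, Nat.pair j i ∈ (Set.univ : Set ℕ)} ∈ J := h
    have h6 : {i : ℕ | ∃ j : ℕ, Nat.pair j i ∈ (Set.univ : Set ℕ)} = Set.univ := by
      ext i; simp
    rwa [h6] at h5

theorem not_redJ (J : Set (Set ℕ)) (hJ : IsIdeal J) (A : Set (Set ℕ))
    (hfin : ∀ F : Set ℕ, F.Finite → ∃ a ∈ A, F ⊆ a)
    (hhit : ∀ R : ℕ → Set ℕ, (∀ i, (R i).Infinite) → ∃ a ∈ A, ∀ i, (a ∩ R i).Nonempty) :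
    ¬ KatetovLE A (P0 J ∩ P1 J) := by
  rintro ⟨φ, hφ⟩
  let R : ℕ → Set ℕ := fun i => {m | ∃ j, m = φ (Nat.pair i j) ∨ m = φ (Nat.pair j i)}
  have key : ∀ a ∈ A, ∃ i, ∀ m ∈ R i, m ∉ a := by
    intro a ha
    obtain ⟨h1, h2⟩ := hφ a ha
    have h3 := hJ.2.2.1 _ h1 _ h2
    by_contra hcon
    push Not at hcon
    apply hJ.2.2.2
    refine hJ.2.1 _ h3 _ ?_
    intro i _
    obtain ⟨m, ⟨j, rfl | rfl⟩, hm⟩ := hcon i
    · exact Or.inl ⟨j, hm⟩
    · exact Or.inr ⟨j, hm⟩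
  by_cases h : ∃ i0, (R i0).Finite
  · obtain ⟨i0, hi0⟩ := h
    obtain ⟨a, ha, hsub⟩ := hfin _ hi0
    obtain ⟨i, hi⟩ := key a ha
    exact hi (φ (Nat.pair i i0)) ⟨i0, Or.inl rfl⟩ (hsub ⟨i, Or.inr rfl⟩)
  · push Not at h
    obtain ⟨a, ha, hR⟩ := hhit R h
    obtain ⟨i, hi⟩ := key a ha
    obtain ⟨m, hma, hmR⟩ := hR i
    exact hi m hmR hma

theorem pseudo (b : ℕ → Set ℕ) (hinf : ∀ n, (b n).Infinite)
    (hlin : ∀ m n, (b m \ b n).Finite ∨ (b n \ b m).Finite) :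
    ∃ X : Set ℕ, X.Infinite ∧ ∀ n, (X \ b n).Finite := by
  have h1 : ∀ k, ∃ m, ∀ n ≤ k, (b m \ b n).Finite := by
    intro k
    induction k with
    | zero =>
      refine ⟨0, fun n hn => ?_⟩
      have : n = 0 := by omega
      subst this
      simp
    | succ k ih =>
      obtain ⟨m, hm⟩ := ih
      rcases hlin m (k + 1) with h | h
      · refine ⟨m, fun n hn => ?_⟩
        rcases Nat.lt_or_ge k n with h' | h'
        · have : n = k + 1 := by omega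
          subst this
          exact h
        · exact hm n h'
      · refine ⟨k + 1, fun n hn => ?_⟩
        rcases Nat.lt_or_ge k n with h' | h'
        · have : n = k + 1 := by omega
          subst this
          simp
        · refine (h.union (hm n h')).subset ?_
          rintro x ⟨hx1, hx2⟩
          by_cases hx : x ∈ b m
          · exact Or.inr ⟨hx, hx2⟩
          · exact Or.inl ⟨hx1, hx⟩
  have h2 : ∀ k, ∃ x, k < x ∧ ∀ n ≤ k, x ∈ b n := by
    intro k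
    obtain ⟨m, hm⟩ := h1 k
    have h3 : (⋃ n ∈ Finset.range (k + 1), (b m \ b n)).Finite := by
      refine Set.Finite.biUnion (Finset.finite_toSet _) fun n hn => hm n ?_
      have := Finset.mem_range.1 (Finset.mem_coe.1 hn)
      omega
    obtain ⟨x, hx, hkx⟩ := ((hinf m).diff h3).exists_gt k
    refine ⟨x, hkx, fun n hn => ?_⟩
    by_contra hxn
    apply hx.2
    simp only [Set.mem_iUnion]
    exact ⟨n, Finset.mem_range.2 (by omega), hx.1, hxn⟩
  choose x hx1 hx2 using h2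
  refine ⟨Set.range x, ?_, fun n => ?_⟩
  · exact Set.infinite_of_forall_exists_gt fun k => ⟨x k, ⟨k, rfl⟩, hx1 k⟩
  · refine ((Set.finite_lt_nat n).image x).subset ?_
    rintro _ ⟨⟨k, rfl⟩, hk⟩
    refine ⟨k, ?_, rfl⟩
    by_contra hcon
    exact hk (hx2 k n (not_lt.1 hcon))

theorem tower_nonempty (T : Set (Set ℕ)) (hT : IsTower T) : T.Nonempty := by
  by_contra h
  rw [Set.not_nonempty_iff_eq_empty] at h
  apply hT.2.2
  exact ⟨Set.univ, Set.infinite_univ, fun a ha => by rw [h] at ha; exact absurd ha (Set.notMem_empty a)⟩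

theorem tower_uncountable (T : Set (Set ℕ)) (hT : IsTower T) : ℵ₀ ≤ Cardinal.mk T := by
  by_contra h
  have h1 : T.Countable := by
    rw [← Cardinal.le_aleph0_iff_set_countable]
    exact (not_le.1 h).le
  obtain ⟨b, hb⟩ := h1.exists_eq_range (tower_nonempty T hT)
  obtain ⟨X, hX, hXb⟩ := pseudo b (fun n => hT.1 _ (by rw [hb]; exact ⟨n, rfl⟩))
    (fun m n => hT.2.1 _ (by rw [hb]; exact ⟨m, rfl⟩) _ (by rw [hb]; exact ⟨n, rfl⟩))
  apply hT.2.2
  refine ⟨X, hX, fun a ha => ?_⟩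
  rw [hb] at ha
  obtain ⟨n, rfl⟩ := ha
  exact hXb n

theorem tower_hit (T : Set (Set ℕ)) (hT : IsTower T) (R : ℕ → Set ℕ) (hR : ∀ i, (R i).Infinite) :
    ∃ a ∈ T, ∀ i, (R i \ a).Infinite := by
  by_contra hcon
  push Not at hcon
  have h1 : ∀ i, ∃ a ∈ T, (R i \ a).Infinite := by
    intro i
    by_contra h
    push Not at h
    exact hT.2.2 ⟨R i, hR i, fun a ha => by simpa using h a ha⟩
  choose b hbT hb using h1
  obtain ⟨X, hX, hXb⟩ := pseudo b (fun n => hT.1 _ (hbT n)) (fun m n => hT.2.1 _ (hbT m) _ (hbT n))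
  have h2 : ∃ a ∈ T, (X \ a).Infinite := by
    by_contra h
    push Not at h
    exact hT.2.2 ⟨X, hX, fun a ha => by simpa using h a ha⟩
  obtain ⟨a, haT, ha⟩ := h2
  have h3 : ∀ i, (a \ b i).Finite := by
    intro i
    rcases hT.2.1 a haT (b i) (hbT i) with h | h
    · exact h
    · exfalso
      apply ha
      refine ((hXb i).union h).subset ?_
      rintro x ⟨hx1, hx2⟩
      by_cases hx : x ∈ b i
      · exact Or.inr ⟨hx, hx2⟩
      · exact Or.inl ⟨hx1, hx⟩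
  obtain ⟨i, hi⟩ := hcon a haT
  have hi : (R i \ a).Finite := by simpa using hi
  apply hb i
  refine (hi.union (h3 i)).subset ?_
  rintro x ⟨hx1, hx2⟩
  by_cases hx : x ∈ a
  · exact Or.inr ⟨hx, hx2⟩
  · exact Or.inl ⟨hx1, hx⟩

def tfam (T : Set (Set ℕ)) : Set (Set ℕ) := {s | ∃ a ∈ T, ∃ m : ℕ, s = aᶜ ∪ {k | k < m}}

theorem tfam_card (T : Set (Set ℕ)) (hT : IsTower T) : Cardinal.mk (tfam T) ≤ Cardinal.mk T := by
  have h1 : tfam T = Set.range (fun x : T × ℕ => (x.1.1)ᶜ ∪ {k | k < x.2}) := by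
    ext a
    constructor
    · rintro ⟨y, hy, m, rfl⟩
      exact ⟨(⟨y, hy⟩, m), rfl⟩
    · rintro ⟨⟨⟨y, hy⟩, m⟩, rfl⟩
      exact ⟨y, hy, m, rfl⟩
  rw [h1]
  refine Cardinal.mk_range_le.trans ?_
  rw [Cardinal.mk_prod, Cardinal.lift_id, Cardinal.lift_id, Cardinal.mk_nat]
  have hinf := tower_uncountable T hT
  calc Cardinal.mk T * ℵ₀ ≤ Cardinal.mk T * Cardinal.mk T := mul_le_mul' le_rfl hinf
    _ = Cardinal.mk T := Cardinal.mul_eq_self hinf

theorem tfam_generates (T : Set (Set ℕ)) (hT : IsTower T) : Generates (tfam T) := by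
  intro t ht htf hfin
  have h1 : ∃ a ∈ T, (a ∩ ⋃₀ t).Finite := by
    clear hfin
    induction t, htf using Set.Finite.induction_on with
    | empty =>
      obtain ⟨a, ha⟩ := tower_nonempty T hT
      exact ⟨a, ha, by simp⟩
    | @insert s t hs htf ih =>
      obtain ⟨a, haT, ha⟩ := ih ((Set.subset_insert _ _).trans ht)
      obtain ⟨c, hcT, m, rfl⟩ := ht (Set.mem_insert _ _)
      rw [Set.sUnion_insert]
      rcases hT.2.1 a haT c hcT with h | h
      · refine ⟨a, haT, ((ha.union h).union (Set.finite_lt_nat m)).subset ?_⟩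
        rintro x ⟨hx, (hxc | hxm) | hxt⟩
        · exact Or.inl (Or.inr ⟨hx, hxc⟩)
        · exact Or.inr hxm
        · exact Or.inl (Or.inl ⟨hx, hxt⟩)
      · refine ⟨c, hcT, ((ha.union h).union (Set.finite_lt_nat m)).subset ?_⟩
        rintro x ⟨hx, (hxc | hxm) | hxt⟩
        · exact absurd hx hxc
        · exact Or.inr hxm
        · by_cases hxa : x ∈ a
          · exact Or.inl (Or.inl ⟨hxa, hxt⟩)
          · exact Or.inl (Or.inr ⟨hx, hxa⟩)
  obtain ⟨a, haT, ha⟩ := h1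
  apply hT.1 a haT
  refine (ha.union hfin).subset ?_
  intro x hx
  by_cases hxt : x ∈ ⋃₀ t
  · exact Or.inl ⟨hx, hxt⟩
  · exact Or.inr hxt

theorem inter_le (J : Set (Set ℕ)) (hJ : IsIdeal J) (T : Set (Set ℕ)) (hT : IsTower T) :
    pKs (P0 J ∩ P1 J) ≤ ((Cardinal.mk T : Cardinal.{0}) : WithTop Cardinal.{0}) := by
  have h1 : pKs (P0 J ∩ P1 J) ≤ ((Cardinal.mk (tfam T) : Cardinal.{0}) : WithTop Cardinal.{0}) := by
    refine sInf_le ⟨tfam T, tfam_generates T hT, not_redJ J hJ _ ?_ ?_, rfl⟩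
    · intro F hF
      obtain ⟨a, ha⟩ := tower_nonempty T hT
      obtain ⟨B, hB⟩ := hF.bddAbove
      refine ⟨aᶜ ∪ {k | k < B + 1}, ⟨a, ha, B + 1, rfl⟩, fun x hx => Or.inr ?_⟩
      have := hB hx
      show x < B + 1
      omega
    · intro R hR
      obtain ⟨a, ha, h⟩ := tower_hit T hT R hR
      refine ⟨aᶜ ∪ {k | k < 0}, ⟨a, ha, 0, rfl⟩, fun i => ?_⟩
      obtain ⟨x, hx⟩ := (h i).nonempty
      exact ⟨x, Or.inl hx.2, hx.1⟩
  exact h1.trans (WithTop.coe_le_coe.2 (tfam_card T hT))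

theorem sum_eq (J : Set (Set ℕ)) (hJ : IsIdeal J) (e : Bool × ℕ ≃ ℕ) :
    pKs (osum e (P0 J) (P1 J)) = pKs J := by
  have h : ∀ A : Set (Set ℕ), KatetovLE A (osum e (P0 J) (P1 J)) ↔ KatetovLE A J := by
    intro A
    constructor
    · rintro ⟨F, hF⟩
      refine ⟨fun i => F (e (false, Nat.pair i 0)), fun a ha => ?_⟩
      refine hJ.2.1 _ (hF a ha).1 _ ?_
      intro i hi
      exact ⟨0, hi⟩
    · rintro ⟨f, hf⟩
      refine ⟨fun n => if (e.symm n).1 = false then f (Nat.unpair (e.symm n).2).1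
        else f (Nat.unpair (e.symm n).2).2, ?_⟩
      intro a ha
      refine ⟨?_, ?_⟩
      · show {i : ℕ | ∃ j : ℕ, Nat.pair i j ∈ {n | e (false, n) ∈ (fun n => if (e.symm n).1 = false
          then f (Nat.unpair (e.symm n).2).1 else f (Nat.unpair (e.symm n).2).2) ⁻¹' a}} ∈ J
        refine hJ.2.1 _ (hf a ha) _ ?_
        rintro i ⟨j, hj⟩
        simpa using hj
      · show {i : ℕ | ∃ j : ℕ, Nat.pair j i ∈ {n | e (true, n) ∈ (fun n => if (e.symm n).1 = false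
          then f (Nat.unpair (e.symm n).2).1 else f (Nat.unpair (e.symm n).2).2) ⁻¹' a}} ∈ J
        refine hJ.2.1 _ (hf a ha) _ ?_
        rintro i ⟨j, hj⟩
        simpa using hj
  unfold pKs
  simp only [h]

theorem main (J : Set (Set ℕ)) (hJ : IsIdeal J) :
    ∃ J₀ J₁ : Set (Set ℕ), IsIdeal J₀ ∧ IsIdeal J₁ ∧
      (∀ e : Bool × ℕ ≃ ℕ, pKs (osum e J₀ J₁) = pKs J) ∧
      ∀ T : Set (Set ℕ), IsTower T →
        pKs (J₀ ∩ J₁) ≤ ((Cardinal.mk T : Cardinal.{0}) : WithTop Cardinal.{0}) :=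
  ⟨P0 J, P1 J, P0_ideal J hJ, P1_ideal J hJ, sum_eq J hJ, inter_le J hJ⟩

end Pool.Agent.X247.SL
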