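import Mathlib
import Pool.Agent.X247.SL.Tower

set_option autoImplicit false

open Set Cardinal

namespace Pool.Agent.X247.SL

/-- The failure of (iv) from an ideal `J` with `𝔭_K(⋆,J) > κ`, where `κ` bounds the size of a tower. -/
theorem iv_fails_tower (κ : Cardinal.{0}) (h2 : (2 : Cardinal.{0}) ^ κ = Cardinal.continuum)
    (T : Set (Set ℕ)) (hT : IsTower T) (hκ : Cardinal.mk T ≤ κ) :
    ∃ J₀ J₁ : Set (Set ℕ), IsIdeal J₀ ∧ IsIdeal J₁ ∧
      pKs (J₀ ∩ J₁) ≤ (κ : WithTop Cardinal.{0}) ∧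
      ∀ e : Bool × ℕ ≃ ℕ, (κ : WithTop Cardinal.{0}) < pKs (osum e J₀ J₁) := by
  have hinf : ℵ₀ ≤ κ := (tower_uncountable T hT).trans hκ
  obtain ⟨U, hU, hUA⟩ := exists_U κ h2 hinf
  let J : Set (Set ℕ) := {B | Bᶜ ∈ U}
  have hJ : IsIdeal J := by
    refine ⟨fun a ha => cof_mem U hU a ha, ?_, ?_, ?_⟩
    · intro a ha b hb
      exact Filter.mem_of_superset ha (Set.compl_subset_compl.2 hb)
    · intro a ha b hb
      show (a ∪ b)ᶜ ∈ U
      rw [Set.compl_union]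
      exact Filter.inter_mem ha hb
    · intro h
      have h' : ((Set.univ : Set ℕ)ᶜ) ∈ U := h
      rw [Set.compl_univ] at h'
      exact Ultrafilter.empty_notMem h'
  refine ⟨P0 J, P1 J, P0_ideal J hJ, P1_ideal J hJ,
    (inter_le J hJ T hT).trans (WithTop.coe_le_coe.2 hκ), fun e => ?_⟩
  rw [sum_eq J hJ e]
  have h1 : ((Order.succ κ : Cardinal.{0}) : WithTop Cardinal.{0}) ≤ pKs J := by
    refine le_sInf ?_
    rintro x ⟨A, hA, hn, rfl⟩
    refine WithTop.coe_le_coe.2 (Order.succ_le_of_lt ?_)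
    by_contra hcon
    obtain ⟨f, hf⟩ := hUA A hA (not_lt.1 hcon)
    exact hn ⟨f, fun a ha => hf a ha⟩
  exact lt_of_lt_of_le (WithTop.coe_lt_coe.2 (Order.lt_succ κ)) h1

end Pool.Agent.X247.SL
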